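import Mathlib
import Pool.Agent.H21.AffDefs

namespace Pool.Agent.Results.MP_7b3742_al.NotWreath

open Pool.Agent.H21.Aff
open scoped commutatorElement

abbrev X := ZMod 3

def act : Bool → X → X → List X → List X
  | _, _, _, [] => []
  | true, s, _, x :: w => x :: act false s (s * x) w
  | false, s, c, x :: w => (x + c) :: act true s 0 w

lemma act_len : ∀ (w : List X) (p s c), (act p s c w).length = w.length
  | [], p, _, _ => by cases p <;> rfl
  | _ :: w, true, _, _ => by simp [act, act_len w]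
  | _ :: w, false, _, _ => by simp [act, act_len w]

lemma act_inv : ∀ (w : List X) (p s c c'), c + c' = 0 ∨ p = true →
    act p (-s) c' (act p s c w) = w
  | [], p, _, _, _, _ => by cases p <;> rfl
  | x :: w, true, s, _, _, _ => by simp [act, act_inv w false s (s * x) (-(s * x)) (by simp)]
  | x :: w, false, s, c, c', h => by
    have h : c + c' = 0 := by simpa using h
    simp [act, act_inv w true s 0 0 (by simp), add_assoc, h]

def pm (p : Bool) (s c : X) : Equiv.Perm (List X) where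
  toFun := act p s c
  invFun := act p (-s) (-c)
  left_inv := fun w => act_inv w p s c (-c) (by simp)
  right_inv := fun w => by simpa using act_inv w p (-s) (-c) c (by simp)

lemma act_get : ∀ (w : List X) (p s c) (j : ℕ), j < w.length → (act p s c w).getD j 0 =
    w.getD j 0 + if j = 0 then (if p then 0 else c) else
      if (j % 2 = 1 ↔ p) then s * w.getD (j - 1) 0 else 0
  | x :: w, true, s, c, 0, _ => by simp [act]
  | x :: w, false, s, c, 0, _ => by simp [act]
  | x :: w, true, s, c, j + 1, h => by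
    have := act_get w false s (s * x) j (by simpa using h)
    simp only [act, List.getD_cons_succ, this]
    rcases j with _ | j
    · simp
    · by_cases hj : j % 2 = 1
      · simp [show (j + 1) % 2 = 0 by omega, show (j + 1 + 1) % 2 = 1 by omega]
      · simp [show (j + 1) % 2 = 1 by omega, show (j + 1 + 1) % 2 = 0 by omega]
  | x :: w, false, s, c, j + 1, h => by
    have := act_get w true s 0 j (by simpa using h)
    simp only [act, List.getD_cons_succ, this]
    rcases j with _ | j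
    · simp
    · by_cases hj : j % 2 = 1
      · simp [show (j + 1) % 2 = 0 by omega, show (j + 1 + 1) % 2 = 1 by omega]
      · simp [show (j + 1) % 2 = 1 by omega, show (j + 1 + 1) % 2 = 0 by omega]

lemma act_app : ∀ (v : List X) (p s c), ∃ p' c', ∀ w,
    act p s c (v ++ w) = act p s c v ++ act p' s c' w
  | [], p, s, c => ⟨p, c, fun w => by cases p <;> simp [act]⟩
  | x :: v, true, s, c => by
    obtain ⟨p', c', h⟩ := act_app v false s (s * x)
    exact ⟨p', c', fun w => by simp [act, h]⟩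
  | x :: v, false, s, c => by
    obtain ⟨p', c', h⟩ := act_app v true s 0
    exact ⟨p', c', fun w => by simp [act, h]⟩

def g : Equiv.Perm (List X) := pm true 1 0
def h : Equiv.Perm (List X) := pm false 1 0

def T (r q : ℕ) (v : List X) : Prop :=
  ∃ k, k % 2 = q ∧ k + r < v.length ∧ v.getD k 0 ≠ 0 ∧ ∀ j, k < j → v.getD j 0 = 0

lemma T.mono {r r' q v} (H : T r q v) (hr : r' ≤ r) : T r' q v := by
  obtain ⟨k, h1, h2, h3⟩ := H
  exact ⟨k, h1, by omega, h3⟩

lemma T.uniq {r v} (H : T r 0 v) (H' : T r 1 v) : False := by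
  obtain ⟨k, h1, -, h3, h4⟩ := H
  obtain ⟨k', h1', -, h3', h4'⟩ := H'
  rcases lt_trichotomy k k' with h | h | h
  · exact h3' (h4 _ h)
  · omega
  · exact h3 (h4' _ h)

lemma step (p : Bool) {s : X} (hs : s ≠ 0) {r v} (H : T (r + 1) (if p then 0 else 1) v) :
    T r (if p then 1 else 0) (act p s 0 v) := by
  obtain ⟨k, h1, h2, h3, h4⟩ := H
  refine ⟨k + 1, by cases p <;> simp at * <;> omega, by rw [act_len]; omega, ?_, fun j hj => ?_⟩
  · rw [act_get _ _ _ _ _ (by omega), h4 _ (by omega), if_neg (by omega),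
      if_pos (by cases p <;> simp at * <;> omega), zero_add]
    exact (by decide : ∀ a b : X, a ≠ 0 → b ≠ 0 → a * b ≠ 0) _ _ hs h3
  · by_cases hl : j < v.length
    · rw [act_get _ _ _ _ _ hl, h4 _ (by omega), h4 _ (by omega), if_neg (by omega)]
      simp
    · exact List.getD_eq_default _ _ (by rw [act_len]; omega)

lemma sg {r v} (H : T (r + 1) 0 v) : T r 1 (g v) := step true (s := 1) (by decide) H
lemma sg' {r v} (H : T (r + 1) 0 v) : T r 1 (g⁻¹ v) := step true (s := -1) (by decide) H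
lemma sh {r v} (H : T (r + 1) 1 v) : T r 0 (h v) := step false (s := 1) (by decide) H
lemma sh' {r v} (H : T (r + 1) 1 v) : T r 0 (h⁻¹ v) := step false (s := -1) (by decide) H

lemma act3 : ∀ (w : List X) (p c), act p 1 c (act p 1 c w) = act p (-1) (-c) w
  | [], p, _ => by cases p <;> rfl
  | x :: w, true, c => by simpa [act] using act3 w false x
  | x :: w, false, c => by
    have := act3 w true 0
    simp only [act, neg_zero] at *
    rw [this, (by decide : ∀ x c : X, x + c + c = x + -c)]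

lemma gg : g * g = g⁻¹ := Equiv.ext fun w => act3 w true 0
lemma hh : h * h = h⁻¹ := Equiv.ext fun w => act3 w false 0

lemma pw (m : ℕ) : ∀ {r v}, T (r + 2 * m) 1 v → T r 1 (((g * h) ^ m) v) := by
  induction m with
  | zero => exact fun H => H
  | succ m ih =>
    intro r v H
    rw [pow_succ]
    exact ih (sg (sh (H.mono (by omega))))

lemma pw' (m : ℕ) : ∀ {r v}, T (r + 2 * m) 0 v → T r 0 (((g * h)⁻¹ ^ m) v) := by
  induction m with
  | zero => exact fun H => H
  | succ m ih =>
    intro r v H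
    rw [pow_succ]
    exact ih (sh' (sg' (H.mono (by omega))))

def Z (m : ℕ) := h⁻¹ * (g * h) ^ m * h
def W (m : ℕ) := g * (g * h) ^ m * g⁻¹

lemma sZ (m : ℕ) {r v} (H : T (r + 2 * m + 3) 1 v) : T r 0 (Z (m + 1) v) := by
  have : Z (m + 1) = h⁻¹ * (g * h) ^ m * g * h⁻¹ := by
    rw [Z, pow_succ, ← hh]; simp only [mul_assoc]
  rw [this]
  exact sh' (pw m (sg (sh' (H.mono (by omega)))))

lemma sZ' (m : ℕ) {r v} (H : T (r + 2 * m + 3) 1 v) : T r 0 ((Z (m + 1))⁻¹ v) := by
  have : (Z (m + 1))⁻¹ = h * g⁻¹ * (g * h)⁻¹ ^ m * h := by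
    have e : h⁻¹ * h⁻¹ = h := by rw [← mul_inv_rev, hh, inv_inv]
    rw [Z, pow_succ, inv_pow]; simp only [mul_inv_rev, inv_inv, ← mul_assoc, e]
  rw [this]
  exact sh (sg' (pw' m (sh (H.mono (by omega)))))

lemma sW (m : ℕ) {r v} (H : T (r + 2 * m + 3) 0 v) : T r 1 (W (m + 1) v) := by
  have : W (m + 1) = g⁻¹ * h * (g * h) ^ m * g⁻¹ := by
    rw [W, pow_succ', ← gg]; simp only [mul_assoc]
  rw [this]
  exact sg' (sh (pw m (sg' (H.mono (by omega)))))

lemma sW' (m : ℕ) {r v} (H : T (r + 2 * m + 3) 0 v) : T r 1 ((W (m + 1))⁻¹ v) := by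
  have : (W (m + 1))⁻¹ = g * (g * h)⁻¹ ^ m * h⁻¹ * g := by
    have e : g⁻¹ * g⁻¹ = g := by rw [← mul_inv_rev, gg, inv_inv]
    rw [W, pow_succ', inv_pow]; simp only [mul_inv_rev, inv_inv, mul_assoc, e]
  rw [this]
  exact sg (pw' m (sh' (sg (H.mono (by omega)))))

lemma key (m : ℕ) : ¬ Commute ⁅Z (m + 1), W (m + 1)⁆ ⁅(Z (m + 1))⁻¹, (W (m + 1))⁻¹⁆ := by
  intro H
  have e : Z (2 * m + 1 + 1) = Z (m + 1) * Z (m + 1) := by
    simp only [Z, show 2 * m + 1 + 1 = (m + 1) + (m + 1) by omega, pow_add (g * h) (m + 1)]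
    group
  set z := Z (m + 1) with hz
  set w := W (m + 1) with hw
  have E : Z (2 * m + 1 + 1) * w * z⁻¹ * w⁻¹ * z⁻¹ * w⁻¹ * z * w =
      w⁻¹ * z * w * z * w * z⁻¹ * w⁻¹ := by
    have := H.eq
    simp only [commutatorElement_def, inv_inv] at this
    rw [e]
    calc _ = z * (z * w * z⁻¹ * w⁻¹ * (z⁻¹ * w⁻¹ * z * w)) := by group
      _ = z * (z⁻¹ * w⁻¹ * z * w * (z * w * z⁻¹ * w⁻¹)) := congrArg _ this
      _ = _ := by group
  have H0 : T (20 * m + 30) 0 (1 :: List.replicate (20 * m + 30) 0) :=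
    ⟨0, rfl, by simp, by simp, fun j hj => by
      obtain ⟨j, rfl⟩ : ∃ i, j = i + 1 := ⟨j - 1, by omega⟩
      simp [List.getD_eq_getElem?_getD, List.getElem?_replicate]
      split_ifs <;> rfl⟩
  have A : T 0 0 _ := sZ (2 * m + 1) (sW m (sZ' m (sW' m (sZ' m (sW' m (sZ m (sW m
    (H0.mono (by omega)))))))))
  have B : T 0 1 _ := sW' m (sZ m (sW m (sZ m (sW m (sZ' m (sW' m (H0.mono (by omega))))))))
  have := congrArg (fun f : Equiv.Perm (List X) => f (1 :: List.replicate (20 * m + 30) 0)) E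
  simp only [Equiv.Perm.mul_apply] at this
  exact T.uniq A (this ▸ B)

lemma meta2 (A B : Type) [AddCommGroup A] [AddCommGroup B]
    (a b c d : Multiplicative (A →₀ B) ⋊[shift A B] Multiplicative A) : Commute ⁅a, b⁆ ⁅c, d⁆ := by
  have : ∀ a b : Multiplicative (A →₀ B) ⋊[shift A B] Multiplicative A, ∃ n, SemidirectProduct.inl n = ⁅a, b⁆ := fun a b => by
    rw [← MonoidHom.mem_range, SemidirectProduct.range_inl_eq_ker_rightHom, MonoidHom.mem_ker,
      map_commutatorElement, commutatorElement_eq_one_iff_mul_comm, mul_comm]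
  obtain ⟨n, hn⟩ := this a b
  obtain ⟨n', hn'⟩ := this c d
  rw [← hn, ← hn']
  exact (Commute.all n n').map _

lemma meta3 (A B : Type) [AddCommGroup A] [AddCommGroup B] (a b c d : Wr A B) :
    Commute ⁅a, b⁆ ⁅c, d⁆ := meta2 A B a b c d

lemma main (A B : Type) [AddCommGroup A] [AddCommGroup B] :
    ¬ FinExt (Subgroup.closure (states g)) (Wr A B) := by
  rintro ⟨N, hN, hi, ⟨φ⟩⟩
  have hg : g ∈ Subgroup.closure (states g) :=
    Subgroup.subset_closure ⟨[], fun w => rfl⟩
  have hh : h ∈ Subgroup.closure (states g) :=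
    Subgroup.subset_closure ⟨[0], fun w => rfl⟩
  obtain ⟨m, hm⟩ : ∃ m, N.index = m + 1 := ⟨N.index - 1, by have := hi.1; omega⟩
  have hx := N.pow_index_mem (⟨g, hg⟩ * ⟨h, hh⟩)
  rw [hm] at hx
  let z : N := ⟨_, hN.conj_mem _ hx (⟨h, hh⟩)⁻¹⟩
  let w : N := ⟨_, hN.conj_mem _ hx ⟨g, hg⟩⟩
  have := ((meta3 A B (φ z) (φ w) (φ z⁻¹) (φ w⁻¹)).map φ.symm).map
    ((Subgroup.subtype _).comp N.subtype)
  simp only [map_commutatorElement, MulEquiv.symm_apply_apply, map_inv] at this
  exact key m this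

theorem result : ∃ g : Equiv.Perm (List (ZMod 3)), IsAffine g ∧ (states g).Finite ∧
    Infinite (Subgroup.closure (states g)) ∧
    ∀ e k l : ℕ, ¬ FinExt (Subgroup.closure (states g)) (Wr (Fin l → ℤ) (Fin k → ZMod e)) := by
  refine ⟨g, ⟨fun i j => if j = i ∨ (j = i + 1 ∧ j % 2 = 1) then 1 else 0, 0,
    fun i j hj => if_neg (by omega), fun i => by simp, fun v => ⟨act_len _ _ _ _, fun j hj => ?_⟩⟩,
    ?_, ?_, fun _ _ _ => main _ _⟩
  · refine (act_get v true 1 0 j hj).trans ?_
    rcases j with _ | j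
    · simp
    · rw [Finset.sum_range_succ, Finset.sum_range_succ, Finset.sum_eq_zero fun i hi => by
        have := Finset.mem_range.1 hi
        simp only []
        rw [if_neg (by omega), mul_zero]]
      by_cases h : (j + 1) % 2 = 1 <;> simp [h, add_comm]
  · refine (Set.finite_range fun q : Bool × X => pm q.1 1 q.2).subset ?_
    rintro f ⟨v, hv⟩
    obtain ⟨p, c, H⟩ := act_app v true 1 0
    exact ⟨(p, c), Equiv.ext fun w => List.append_cancel_left ((H w).symm.trans (hv w))⟩
  · rw [← not_finite_iff_infinite]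
    intro hf
    have : Unique (Wr Unit Unit) := by
      refine @Unique.mk' _ ⟨1⟩ ⟨fun a b => SemidirectProduct.ext ?_ (Subsingleton.elim _ _)⟩
      exact Finsupp.ext fun _ => Subsingleton.elim _ _
    exact main Unit Unit ⟨⊥, inferInstance, inferInstance, ⟨MulEquiv.ofUnique⟩⟩

end Pool.Agent.Results.MP_7b3742_al.NotWreath
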